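import Mathlib

/-!
# The unit group of the universal CP monoid is generated by the symmetric groups
-/

set_option autoImplicit false

namespace Pool.Agent.Results.MP_6189ff_al.UnitsGenerated

/-- A `d`-CP structure on the monoid `M`: a bijection `Φ : M^d → M` and elements `τ_1, …, τ_d` with
`τ_i Φ(m_1, …, m_d) = m_i`. -/
structure CPStructure (M : Type) [Monoid M] (d : ℕ) where
  /-- the bijection -/
  Φ : (Fin d → M) → M
  /-- the distinguished elements -/
  τ : Fin d → M
  bijective : Function.Bijective Φ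
  τ_mul_Φ : ∀ (i : Fin d) (m : Fin d → M), τ i * Φ m = m i

/-- The 1-CP structure `(id, 1)`. -/
def idStructure (M : Type) [Monoid M] : CPStructure M 1 where
  Φ m := m 0
  τ _ := 1
  bijective := ⟨fun m m' h => funext fun i => by rw [Subsingleton.elim i 0]; exact h,
    fun a => ⟨fun _ => a, rfl⟩⟩
  τ_mul_Φ i m := by rw [one_mul, Subsingleton.elim i 0]

/-- Combining an `s`-CP structure `Ψ` and `d_i`-CP structures `Q_i`, `1 ≤ i ≤ s`. The pairs `(i, j)`,
`1 ≤ i ≤ s`, `1 ≤ j ≤ d_i`, are numbered in lexicographic order. -/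
def CPStructure.combine {M : Type} [Monoid M] {s : ℕ} (Ψ : CPStructure M s) {d : Fin s → ℕ}
    (Q : ∀ i, CPStructure M (d i)) : CPStructure M (∑ i, d i) where
  Φ m := Ψ.Φ fun i => (Q i).Φ fun j => m (finSigmaFinEquiv ⟨i, j⟩)
  τ k := (Q (finSigmaFinEquiv.symm k).1).τ (finSigmaFinEquiv.symm k).2 *
    Ψ.τ (finSigmaFinEquiv.symm k).1
  bijective := by
    constructor
    · intro m m' h
      have h1 := Ψ.bijective.1 h
      funext k
      obtain ⟨⟨i, j⟩, rfl⟩ := finSigmaFinEquiv.surjective k
      exact congrFun ((Q i).bijective.1 (congrFun h1 i)) j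
    · intro a
      obtain ⟨b, rfl⟩ := Ψ.bijective.2 a
      choose c hc using fun i => (Q i).bijective.2 (b i)
      refine ⟨fun k => c (finSigmaFinEquiv.symm k).1 (finSigmaFinEquiv.symm k).2, ?_⟩
      show Ψ.Φ _ = Ψ.Φ b
      congr 1
      funext i
      rw [← hc i]
      congr 1
      funext j
      have h : ∀ y : (i : Fin s) × Fin (d i), y = ⟨i, j⟩ → c y.1 y.2 = c i j := by
        rintro _ rfl
        rfl
      exact h _ (Equiv.symm_apply_apply _ _)
  τ_mul_Φ k m := by
    rw [mul_assoc, Ψ.τ_mul_Φ, (Q _).τ_mul_Φ]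
    simp

/-- The set `𝕊(M)` of the structures obtained from the 2-CP structure `P` and `(id, 1)` by finitely
many combinations. -/
inductive Iterated {M : Type} [Monoid M] (P : CPStructure M 2) :
    ∀ {d : ℕ}, CPStructure M d → Prop
  | base : Iterated P P
  | id : Iterated P (idStructure M)
  | combine {s : ℕ} (Ψ : CPStructure M s) {d : Fin s → ℕ} (Q : ∀ i, CPStructure M (d i)) :
      Iterated P Ψ → (∀ i, Iterated P (Q i)) → Iterated P (Ψ.combine Q)

/-- `ψ(σ) = Φ(τ_{σ⁻¹(1)}, …, τ_{σ⁻¹(d)})` -/
def CPStructure.ψ {M : Type} [Monoid M] {d : ℕ} (Q : CPStructure M d) (σ : Equiv.Perm (Fin d)) : M :=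
  Q.Φ fun i => Q.τ (σ⁻¹ i)

/-- `f` is a homomorphism of CP monoids. -/
def IsCPHom {M N : Type} [Monoid M] [Monoid N] (P : CPStructure M 2) (Q : CPStructure N 2)
    (f : M →* N) : Prop :=
  (∀ i, f (P.τ i) = Q.τ i) ∧ ∀ m : Fin 2 → M, f (P.Φ m) = Q.Φ fun i => f (m i)

/-- The CP monoid `(M, P)` is initial in the category of CP monoids: it is the universal CP
monoid. -/
def IsUniversal {M : Type} [Monoid M] (P : CPStructure M 2) : Prop :=
  ∀ (N : Type) [Monoid N] (Q : CPStructure N 2), ∃! f : M →* N, IsCPHom P Q f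

section Basics

variable {M : Type} [Monoid M] {d : ℕ}

theorem CPStructure.ext_mul (Q : CPStructure M d) {a b : M} (h : ∀ i, Q.τ i * a = Q.τ i * b) :
    a = b := by
  obtain ⟨m, rfl⟩ := Q.bijective.2 a
  obtain ⟨m', rfl⟩ := Q.bijective.2 b
  congr 1
  funext i
  rw [← Q.τ_mul_Φ i m, h i, Q.τ_mul_Φ]

theorem CPStructure.τ_mul_ψ (Q : CPStructure M d) (σ : Equiv.Perm (Fin d)) (i : Fin d) :
    Q.τ i * Q.ψ σ = Q.τ (σ⁻¹ i) := Q.τ_mul_Φ i _

theorem CPStructure.ψ_mul (Q : CPStructure M d) (σ ρ : Equiv.Perm (Fin d)) :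
    Q.ψ σ * Q.ψ ρ = Q.ψ (σ * ρ) := by
  apply Q.ext_mul
  intro i
  rw [← mul_assoc, Q.τ_mul_ψ, Q.τ_mul_ψ, Q.τ_mul_ψ, mul_inv_rev, Equiv.Perm.mul_apply]

theorem CPStructure.ψ_one (Q : CPStructure M d) : Q.ψ 1 = 1 := by
  apply Q.ext_mul
  intro i
  rw [Q.τ_mul_ψ, mul_one, inv_one, Equiv.Perm.one_apply]

/-- `ψ σ` as a unit -/
def CPStructure.ψu (Q : CPStructure M d) (σ : Equiv.Perm (Fin d)) : Mˣ where
  val := Q.ψ σ
  inv := Q.ψ σ⁻¹
  val_inv := by rw [Q.ψ_mul, mul_inv_cancel, Q.ψ_one]
  inv_val := by rw [Q.ψ_mul, inv_mul_cancel, Q.ψ_one]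

/-- the word of a path -/
def wd (P : CPStructure M 2) : List (Fin 2) → M
  | [] => 1
  | b :: l => wd P l * P.τ b

theorem wd_append (P : CPStructure M 2) (l r : List (Fin 2)) :
    wd P (l ++ r) = wd P r * wd P l := by
  induction l with
  | nil => simp [wd]
  | cons b l ih => simp only [List.cons_append, wd, ih, mul_assoc]

end Basics

/-! ### existence of the universal CP monoid -/

section Existence

/-- terms -/
inductive Term : Type
  | one | proj (i : Fin 2) | sig (a b : Term) | mul (a b : Term)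

/-- the congruence -/
inductive TRel : Term → Term → Prop
  | refl (a) : TRel a a
  | symm {a b} : TRel a b → TRel b a
  | trans {a b c} : TRel a b → TRel b c → TRel a c
  | mul {a b c d} : TRel a b → TRel c d → TRel (.mul a c) (.mul b d)
  | sig {a b c d} : TRel a b → TRel c d → TRel (.sig a c) (.sig b d)
  | assoc (a b c) : TRel (.mul (.mul a b) c) (.mul a (.mul b c))
  | one_mul (a) : TRel (.mul .one a) a
  | mul_one (a) : TRel (.mul a .one) a
  | fst (a b) : TRel (.mul (.proj 0) (.sig a b)) a
  | snd (a b) : TRel (.mul (.proj 1) (.sig a b)) b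
  | eta (a) : TRel (.sig (.mul (.proj 0) a) (.mul (.proj 1) a)) a

instance tset : Setoid Term := ⟨TRel, TRel.refl, TRel.symm, TRel.trans⟩

/-- the term model -/
def TM : Type := Quotient tset

/-- the class of a term -/
def tmk (a : Term) : TM := Quotient.mk tset a

instance : Monoid TM where
  mul := Quotient.map₂ Term.mul fun _ _ h1 _ _ h2 => TRel.mul h1 h2
  one := ⟦Term.one⟧
  mul_assoc := by
    rintro ⟨a⟩ ⟨b⟩ ⟨c⟩
    exact Quotient.sound (TRel.assoc a b c)
  one_mul := by
    rintro ⟨a⟩
    exact Quotient.sound (TRel.one_mul a)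
  mul_one := by
    rintro ⟨a⟩
    exact Quotient.sound (TRel.mul_one a)

/-- the pairing of the term model -/
def tsig : TM → TM → TM := Quotient.map₂ Term.sig fun _ _ h1 _ _ h2 => TRel.sig h1 h2

/-- the projections of the term model -/
def tproj (i : Fin 2) : TM := ⟦Term.proj i⟧

theorem tfst (a b : TM) : tproj 0 * tsig a b = a := by
  revert a b
  rintro ⟨a⟩ ⟨b⟩
  exact Quotient.sound (TRel.fst a b)

theorem tsnd (a b : TM) : tproj 1 * tsig a b = b := by
  revert a b
  rintro ⟨a⟩ ⟨b⟩
  exact Quotient.sound (TRel.snd a b)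

theorem teta (a : TM) : tsig (tproj 0 * a) (tproj 1 * a) = a := by
  revert a
  rintro ⟨a⟩
  exact Quotient.sound (TRel.eta a)

/-- the CP structure of the term model -/
def TP : CPStructure TM 2 where
  Φ m := tsig (m 0) (m 1)
  τ := tproj
  bijective := by
    constructor
    · intro m m' h
      have h0 : m 0 = m' 0 := by
        have := congrArg (fun x => tproj 0 * x) h
        simpa only [tfst] using this
      have h1 : m 1 = m' 1 := by
        have := congrArg (fun x => tproj 1 * x) h
        simpa only [tsnd] using this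
      funext i
      fin_cases i
      · exact h0
      · exact h1
    · intro a
      exact ⟨fun i => tproj i * a, teta a⟩
  τ_mul_Φ i m := by
    fin_cases i
    · exact tfst _ _
    · exact tsnd _ _

variable {N : Type} [Monoid N] (Q : CPStructure N 2)

/-- evaluation of terms -/
def ev : Term → N
  | .one => 1
  | .proj i => Q.τ i
  | .sig a b => Q.Φ ![ev a, ev b]
  | .mul a b => ev a * ev b

theorem ev_rel {a b : Term} (h : TRel a b) : ev Q a = ev Q b := by
  induction h with
  | refl a => rfl
  | symm _ ih => exact ih.symm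
  | trans _ _ h1 h2 => exact h1.trans h2
  | mul _ _ h1 h2 => simp only [ev, h1, h2]
  | sig _ _ h1 h2 => simp only [ev, h1, h2]
  | assoc a b c => simp only [ev, mul_assoc]
  | one_mul a => simp only [ev, one_mul]
  | mul_one a => simp only [ev, mul_one]
  | fst a b => simp only [ev, Q.τ_mul_Φ]; rfl
  | snd a b => simp only [ev, Q.τ_mul_Φ]; rfl
  | eta a =>
    apply Q.ext_mul
    intro i
    simp only [ev, Q.τ_mul_Φ]
    fin_cases i <;> rfl

theorem tm_universal : IsUniversal TP := by
  intro N _ Q
  let f : TM →* N :=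
    { toFun := Quotient.lift (ev Q) fun _ _ h => ev_rel Q h
      map_one' := rfl
      map_mul' := by
        rintro ⟨a⟩ ⟨b⟩
        rfl }
  have hf : ∀ a : Term, f ⟦a⟧ = ev Q a := fun _ => rfl
  have hsig : ∀ a b : TM, f (tsig a b) = Q.Φ ![f a, f b] := by
    rintro ⟨a⟩ ⟨b⟩
    rfl
  refine ⟨f, ⟨fun i => rfl, fun m => ?_⟩, ?_⟩
  · show f (tsig (m 0) (m 1)) = _
    rw [hsig]
    congr 1
    funext i
    fin_cases i <;> rfl
  · rintro g ⟨hg1, hg2⟩
    ext x
    induction x using Quotient.inductionOn with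
    | h a =>
    rw [hf]
    induction a with
    | one => exact map_one g
    | proj i => exact hg1 i
    | sig a b ha hb =>
      have h := hg2 ![⟦a⟧, ⟦b⟧]
      have h2 : (TP.Φ ![⟦a⟧, ⟦b⟧] : TM) = ⟦Term.sig a b⟧ := rfl
      rw [h2] at h
      rw [h]
      simp only [ev]
      congr 1
      funext i
      fin_cases i
      · exact ha
      · exact hb
    | mul a b ha hb =>
      have h : g (tmk (Term.mul a b)) = g (tmk a) * g (tmk b) := map_mul g (tmk a) (tmk b)
      have h' : g (tmk (Term.mul a b)) = ev Q a * ev Q b := by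
        rw [h]
        exact congrArg₂ _ ha hb
      exact h'

end Existence

/-! ### the Cantor space model -/

section Cantor

/-- the Cantor space -/
abbrev Can : Type := ℕ → Fin 2

/-- put a letter in front of a sequence -/
def sc (b : Fin 2) (c : Can) : Can
  | 0 => b
  | n + 1 => c n

/-- the tail of a sequence -/
def tl (c : Can) : Can := fun n => c (n + 1)

theorem sc_tl (c : Can) : sc (c 0) (tl c) = c := by
  funext n
  cases n <;> rfl

theorem tl_sc (b : Fin 2) (c : Can) : tl (sc b c) = c := rfl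

/-- put a word in front of a sequence -/
def cat : List (Fin 2) → Can → Can
  | [], c => c
  | b :: l, c => sc b (cat l c)

theorem cat_append (l r : List (Fin 2)) (c : Can) : cat (l ++ r) c = cat l (cat r c) := by
  induction l with
  | nil => rfl
  | cons b l ih => simp only [List.cons_append, cat, ih]

theorem cat_inj (l : List (Fin 2)) {c c' : Can} (h : cat l c = cat l c') : c = c' := by
  induction l with
  | nil => exact h
  | cons b l ih => exact ih (congrArg tl h)

theorem cat_comparable (l l' : List (Fin 2)) {c c' : Can} (h : cat l c = cat l' c') :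
    (∃ r, l' = l ++ r) ∨ ∃ r, l = l' ++ r := by
  induction l generalizing l' with
  | nil => exact Or.inl ⟨l', rfl⟩
  | cons b l ih =>
    cases l' with
    | nil => exact Or.inr ⟨b :: l, rfl⟩
    | cons b' l' =>
      have hb : b = b' := congrFun h 0
      subst hb
      have ht : cat l c = cat l' c' := congrArg tl h
      rcases ih l' ht with ⟨r, hr⟩ | ⟨r, hr⟩
      · exact Or.inl ⟨r, by rw [hr, List.cons_append]⟩
      · exact Or.inr ⟨r, by rw [hr, List.cons_append]⟩

/-- `l` is a prefix of `c` -/
def Pre (l : List (Fin 2)) (c : Can) : Prop := ∃ c', c = cat l c'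

/-- a finite set of words such that every sequence has exactly one prefix in it -/
def Cover (S : Finset (List (Fin 2))) : Prop := ∀ c : Can, ∃! l, l ∈ S ∧ Pre l c

theorem Cover.eq {S : Finset (List (Fin 2))} (hS : Cover S) {l l' r r' : List (Fin 2)} (h : l ∈ S)
    (h' : l' ∈ S) (hr : l ++ r = l' ++ r') : l = l' := by
  obtain ⟨m, -, hm⟩ := hS (cat (l ++ r) fun _ => 0)
  rw [hm l ⟨h, _, cat_append _ _ _⟩, hm l' ⟨h', _, by rw [hr]; exact cat_append _ _ _⟩]

/-- the monoid of the maps of the Cantor space, with reversed composition -/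
abbrev CM : Type := (Function.End Can)ᵐᵒᵖ

/-- its CP structure -/
def CP : CPStructure CM 2 where
  Φ m := MulOpposite.op fun c => (MulOpposite.unop (m (c 0))) (tl c)
  τ b := MulOpposite.op (sc b)
  bijective := by
    constructor
    · intro m m' h
      funext b
      apply MulOpposite.unop_injective
      funext c
      exact congrFun (MulOpposite.op_injective h) (sc b c)
    · intro a
      refine ⟨fun b => MulOpposite.op fun c => MulOpposite.unop a (sc b c), ?_⟩
      apply MulOpposite.unop_injective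
      funext c
      show MulOpposite.unop a (sc (c 0) (tl c)) = _
      rw [sc_tl]
  τ_mul_Φ b m := by
    apply MulOpposite.unop_injective
    rfl

theorem cover_nil : Cover {[]} := fun c => ⟨[], ⟨by simp, c, rfl⟩, fun l hl => by simpa using hl.1⟩

/-- a cover which contains the empty word -/
theorem Cover.eq_nil {S : Finset (List (Fin 2))} (hS : Cover S) (h : [] ∈ S) : S = {[]} := by
  ext l
  rw [Finset.mem_singleton]
  constructor
  · intro hl
    exact (hS.eq h hl (r := l) (r' := []) (by simp)).symm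
  · rintro rfl
    exact h

/-- a cover with one element -/
theorem Cover.singleton {l : List (Fin 2)} (hS : Cover {l}) : l = [] := by
  cases l with
  | nil => rfl
  | cons b l =>
    obtain ⟨m, ⟨hm, c', hc⟩, -⟩ := hS (sc (b + 1) fun _ => 0)
    rw [Finset.mem_singleton] at hm
    subst hm
    have h0 := congrFun hc 0
    have : b + 1 = b := h0
    simp at this

/-- replace the words `α0`, `α1` by `α` -/
def join (S : Finset (List (Fin 2))) (α : List (Fin 2)) : Finset (List (Fin 2)) :=
  insert α ((S.erase (α ++ [0])).erase (α ++ [1]))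

theorem mem_join {S : Finset (List (Fin 2))} {α l : List (Fin 2)} :
    l ∈ join S α ↔ l = α ∨ (l ≠ α ++ [0] ∧ l ≠ α ++ [1] ∧ l ∈ S) := by
  simp only [join, Finset.mem_insert, Finset.mem_erase]
  tauto

theorem pre_two {α : List (Fin 2)} {c : Can} : Pre α c ↔ Pre (α ++ [0]) c ∨ Pre (α ++ [1]) c := by
  constructor
  · rintro ⟨c', rfl⟩
    have h : ∀ b : Fin 2, c' 0 = b → Pre (α ++ [b]) (cat α c') := by
      rintro b rfl
      refine ⟨tl c', ?_⟩
      rw [cat_append]
      show _ = cat α (sc (c' 0) (tl c'))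
      rw [sc_tl]
    rcases Fin.exists_fin_two.1 ⟨c' 0, rfl⟩ with h0 | h0
    · exact Or.inl (h 0 h0)
    · exact Or.inr (h 1 h0)
  · rintro (⟨c', rfl⟩ | ⟨c', rfl⟩) <;> exact ⟨_, cat_append _ _ _⟩

theorem cover_join {S : Finset (List (Fin 2))} (hS : Cover S) {α : List (Fin 2)}
    (h0 : α ++ [0] ∈ S) (h1 : α ++ [1] ∈ S) : Cover (join S α) := by
  have hα : ∀ l ∈ S, ∀ c, Pre l c → Pre α c → l = α ++ [0] ∨ l = α ++ [1] := by
    intro l hl c hlc hαc
    obtain ⟨m, -, hm⟩ := hS c
    rcases pre_two.1 hαc with h | h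
    · exact Or.inl ((hm l ⟨hl, hlc⟩).trans (hm _ ⟨h0, h⟩).symm)
    · exact Or.inr ((hm l ⟨hl, hlc⟩).trans (hm _ ⟨h1, h⟩).symm)
  intro c
  obtain ⟨m, ⟨hm1, hm2⟩, hm⟩ := hS c
  by_cases hc : Pre α c
  · refine ⟨α, ⟨mem_join.2 (Or.inl rfl), hc⟩, ?_⟩
    rintro l ⟨hl, hlc⟩
    rcases mem_join.1 hl with h | ⟨h2, h3, h4⟩
    · exact h
    · rcases hα l h4 c hlc hc with h | h
      · exact absurd h h2
      · exact absurd h h3
  · refine ⟨m, ⟨mem_join.2 (Or.inr ⟨?_, ?_, hm1⟩), hm2⟩, ?_⟩
    · rintro rfl
      exact hc (pre_two.2 (Or.inl hm2))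
    · rintro rfl
      exact hc (pre_two.2 (Or.inr hm2))
    · rintro l ⟨hl, hlc⟩
      rcases mem_join.1 hl with h | ⟨h2, h3, h4⟩
      · exact absurd (h ▸ hlc) hc
      · exact hm l ⟨h4, hlc⟩

/-- a cover other than `{[]}` contains two words `α0`, `α1` -/
theorem Cover.exists_caret {S : Finset (List (Fin 2))} (hS : Cover S) (hne : S ≠ {[]}) :
    ∃ α, α ++ [0] ∈ S ∧ α ++ [1] ∈ S := by
  have hnon : S.Nonempty := by
    obtain ⟨l, ⟨hl, -⟩, -⟩ := hS fun _ => 0
    exact ⟨l, hl⟩
  obtain ⟨l, hl, hmax⟩ := S.exists_max_image List.length hnon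
  have hl0 : l ≠ [] := by
    rintro rfl
    exact hne (hS.eq_nil hl)
  obtain ⟨α, b, rfl⟩ : ∃ α b, l = α ++ [b] := ⟨l.dropLast, l.getLast hl0,
    (List.dropLast_append_getLast hl0).symm⟩
  have key : ∀ b' : Fin 2, α ++ [b'] ∈ S := by
    intro b'
    obtain ⟨m, ⟨hm1, c', hc'⟩, -⟩ := hS (cat (α ++ [b']) fun _ => 0)
    rcases cat_comparable _ _ hc' with ⟨r, hr⟩ | ⟨r, hr⟩
    · have hlen := hmax m hm1
      rw [hr] at hlen
      have : r = [] := by
        rw [← List.length_eq_zero_iff]
        simp at hlen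
        simpa using hlen
      rw [this, List.append_nil] at hr
      rwa [← hr]
    · rcases List.eq_nil_or_concat' r with rfl | ⟨r', b'', rfl⟩
      · rw [List.append_nil] at hr
        rwa [hr]
      · exfalso
        have h1 : α = m ++ r' := by
          have := congrArg List.dropLast hr
          rw [← List.append_assoc] at this
          simpa using this
        have h2 : m = α ++ [b] := hS.eq hm1 hl (r := r' ++ [b]) (r' := []) (by
          rw [← List.append_assoc, ← h1, List.append_nil])
        have h3 := congrArg List.length h1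
        rw [h2] at h3
        simp at h3
  exact ⟨α, key 0, key 1⟩

theorem card_join {S : Finset (List (Fin 2))} {α : List (Fin 2)} (h0 : α ++ [0] ∈ S)
    (h1 : α ++ [1] ∈ S) : (join S α).card < S.card := by
  have hne : α ++ [(1 : Fin 2)] ≠ α ++ [0] := by
    intro h
    have := List.append_cancel_left h
    simp at this
  have h2 : ((S.erase (α ++ [0])).erase (α ++ [1])).card + 2 = S.card := by
    rw [Finset.card_erase_of_mem (Finset.mem_erase.2 ⟨hne, h1⟩), Finset.card_erase_of_mem h0]
    have : 1 < S.card := Finset.one_lt_card.2 ⟨_, h1, _, h0, hne⟩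
    omega
  have h3 := Finset.card_insert_le α ((S.erase (α ++ [0])).erase (α ++ [1]))
  unfold join
  omega

end Cantor

/-! ### units -/

section Units

variable {U : Type} [Monoid U] (P : CPStructure U 2)

/-- the union of the images of the symmetric groups -/
def Images : Set Uˣ := {u | ∃ (d : ℕ) (Q : CPStructure U d) (σ : Equiv.Perm (Fin d)), 2 ≤ d ∧
  Iterated P Q ∧ (u : U) = Q.ψ σ}

/-- every cover is the set of words of an iterated structure -/
theorem exists_structure : ∀ (n : ℕ) (S : Finset (List (Fin 2))), S.card ≤ n → Cover S →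
    ∃ (d : ℕ) (Q : CPStructure U d) (lv : Fin d → List (Fin 2)), Iterated P Q ∧
      Function.Injective lv ∧ (∀ l, l ∈ S ↔ ∃ i, lv i = l) ∧ ∀ i, Q.τ i = wd P (lv i) := by
  intro n
  induction n with
  | zero =>
    intro S hS hc
    have : S = ∅ := Finset.card_eq_zero.1 (by omega)
    subst this
    obtain ⟨l, ⟨hl, -⟩, -⟩ := hc fun _ => 0
    simp at hl
  | succ n ih =>
    intro S hS hc
    by_cases hne : S = {[]}
    · subst hne
      refine ⟨1, idStructure U, fun _ => [], Iterated.id, fun i j _ => Subsingleton.elim _ _,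
        fun l => ?_, fun i => rfl⟩
      rw [Finset.mem_singleton]
      exact ⟨fun h => ⟨0, h.symm⟩, fun ⟨_, h⟩ => h.symm⟩
    · obtain ⟨α, h0, h1⟩ := hc.exists_caret hne
      have hj := cover_join hc h0 h1
      obtain ⟨s, Q0, lv0, hQ0, hinj0, hmem0, hτ0⟩ := ih (join S α)
        (by have := card_join h0 h1; omega) hj
      obtain ⟨i0, hi0⟩ := (hmem0 α).1 (mem_join.2 (Or.inl rfl))
      let d : Fin s → ℕ := fun i => if i = i0 then 2 else 1
      have hex : ∀ i, ∃ (Qi : CPStructure U (d i)) (lvi : Fin (d i) → List (Fin 2)),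
          Iterated P Qi ∧ Function.Injective lvi ∧
          (∀ l, (∃ j, lvi j = l) ↔ if i = i0 then l = [0] ∨ l = [1] else l = []) ∧
          ∀ j, Qi.τ j = wd P (lvi j) := by
        intro i
        by_cases hi : i = i0
        · have hd : d i = 2 := if_pos hi
          rw [hd]
          refine ⟨P, fun j => [j], Iterated.base, fun j k h => by simpa using h, fun l => ?_,
            fun j => by simp [wd]⟩
          rw [if_pos hi]
          constructor
          · rintro ⟨j, rfl⟩
            fin_cases j
            · exact Or.inl rfl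
            · exact Or.inr rfl
          · rintro (rfl | rfl)
            · exact ⟨0, rfl⟩
            · exact ⟨1, rfl⟩
        · have hd : d i = 1 := if_neg hi
          rw [hd]
          refine ⟨idStructure U, fun _ => [], Iterated.id, fun i j _ => Subsingleton.elim _ _,
            fun l => ?_, fun j => rfl⟩
          rw [if_neg hi]
          exact ⟨fun ⟨_, h⟩ => h.symm, fun h => ⟨0, h.symm⟩⟩
      choose Qs lvs hQs hinjs hmems hτs using hex
      have hE : ∀ x : (i : Fin s) × Fin (d i), lv0 (finSigmaFinEquiv.symm (finSigmaFinEquiv x)).1 ++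
          lvs (finSigmaFinEquiv.symm (finSigmaFinEquiv x)).1
            (finSigmaFinEquiv.symm (finSigmaFinEquiv x)).2 = lv0 x.1 ++ lvs x.1 x.2 := by
        intro x
        rw [Equiv.symm_apply_apply]
      refine ⟨_, Q0.combine Qs, fun k => lv0 (finSigmaFinEquiv.symm k).1 ++
        lvs (finSigmaFinEquiv.symm k).1 (finSigmaFinEquiv.symm k).2, Iterated.combine _ _ hQ0 hQs,
        ?_, ?_, ?_⟩
      · intro k k' hk
        obtain ⟨⟨i, j⟩, rfl⟩ := finSigmaFinEquiv.surjective k
        obtain ⟨⟨i', j'⟩, rfl⟩ := finSigmaFinEquiv.surjective k'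
        have hk : lv0 i ++ lvs i j = lv0 i' ++ lvs i' j' := by
          rw [← hE ⟨i, j⟩, ← hE ⟨i', j'⟩]
          exact hk
        have h2 : lv0 i = lv0 i' := hj.eq ((hmem0 _).2 ⟨i, rfl⟩) ((hmem0 _).2 ⟨i', rfl⟩) hk
        have h3 : i = i' := hinj0 h2
        subst h3
        have h4 : j = j' := hinjs i (List.append_cancel_left hk)
        rw [h4]
      · intro l
        have hiff : (∃ k, lv0 (finSigmaFinEquiv.symm k).1 ++
            lvs (finSigmaFinEquiv.symm k).1 (finSigmaFinEquiv.symm k).2 = l) ↔
            ∃ i j, lv0 i ++ lvs i j = l := by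
          constructor
          · rintro ⟨k, hk⟩
            exact ⟨_, _, hk⟩
          · rintro ⟨i, j, hij⟩
            exact ⟨finSigmaFinEquiv ⟨i, j⟩, (hE ⟨i, j⟩).trans hij⟩
        rw [hiff]
        constructor
        · intro hl
          by_cases hl0 : l = α ++ [0]
          · obtain ⟨j, hj⟩ := (hmems i0 [0]).2 (by rw [if_pos rfl]; exact Or.inl rfl)
            exact ⟨i0, j, by rw [hi0, hj, hl0]⟩
          by_cases hl1 : l = α ++ [1]
          · obtain ⟨j, hj⟩ := (hmems i0 [1]).2 (by rw [if_pos rfl]; exact Or.inr rfl)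
            exact ⟨i0, j, by rw [hi0, hj, hl1]⟩
          obtain ⟨i, hi⟩ := (hmem0 l).1 (mem_join.2 (Or.inr ⟨hl0, hl1, hl⟩))
          have hii : i ≠ i0 := by
            rintro rfl
            rw [hi] at hi0
            -- `l = α` is impossible
            have := hc.eq h0 hl (r := []) (r' := [0]) (by rw [hi0, List.append_nil])
            exact hl0 this.symm
          obtain ⟨j, hj⟩ := (hmems i []).2 (by rw [if_neg hii])
          exact ⟨i, j, by rw [hi, hj, List.append_nil]⟩
        · rintro ⟨i, j, rfl⟩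
          by_cases hii : i = i0
          · subst hii
            have := (hmems i (lvs i j)).1 ⟨j, rfl⟩
            rw [if_pos rfl] at this
            rw [hi0]
            rcases this with h | h
            · rw [h]; exact h0
            · rw [h]; exact h1
          · have := (hmems i (lvs i j)).1 ⟨j, rfl⟩
            rw [if_neg hii] at this
            rw [this, List.append_nil]
            have h3 := (hmem0 (lv0 i)).2 ⟨i, rfl⟩
            rcases mem_join.1 h3 with h | ⟨-, -, h⟩
            · exact absurd (hinj0 (h.trans hi0.symm)) hii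
            · exact h
      · intro k
        show (Qs _).τ _ * Q0.τ _ = _
        rw [hτs, hτ0, wd_append]

/-- a unit which permutes the words of two covers is a product of elements of the images -/
theorem unit_mem : ∀ (n : ℕ) (S : Finset (List (Fin 2))), S.card ≤ n → Cover S →
    ∀ f : List (Fin 2) → List (Fin 2), Set.InjOn f S → Cover (S.image f) →
    ∀ u : Uˣ, (∀ l ∈ S, wd P l * u = wd P (f l)) → u ∈ Subgroup.closure (Images P) := by
  intro n
  induction n with
  | zero =>
    intro S hS hc
    have : S = ∅ := Finset.card_eq_zero.1 (by omega)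
    subst this
    obtain ⟨l, ⟨hl, -⟩, -⟩ := hc fun _ => 0
    simp at hl
  | succ n ih =>
    intro S hS hc f hf hcf u hu
    by_cases hne : S = {[]}
    · subst hne
      rw [Finset.image_singleton] at hcf
      have h1 := hu [] (by simp)
      rw [hcf.singleton] at h1
      have : u = 1 := by
        ext
        simpa [wd] using h1
      rw [this]
      exact Subgroup.one_mem _
    · obtain ⟨α, h0, h1⟩ := hc.exists_caret hne
      have hne' : S.image f ≠ {[]} := by
        intro h
        have h2 : (S.image f).card = S.card := Finset.card_image_of_injOn hf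
        rw [h, Finset.card_singleton] at h2
        obtain ⟨x, hx⟩ := Finset.card_eq_one.1 h2.symm
        rw [hx] at hc
        rw [hx, hc.singleton] at hne
        exact hne rfl
      obtain ⟨α', h0', h1'⟩ := hcf.exists_caret hne'
      obtain ⟨β0, hβ0, hfβ0⟩ := Finset.mem_image.1 h0'
      obtain ⟨β1, hβ1, hfβ1⟩ := Finset.mem_image.1 h1'
      have hβ : β1 ≠ β0 := by
        rintro rfl
        rw [hfβ0] at hfβ1
        have := List.append_cancel_left hfβ1
        simp at this
      have hα : α ++ [(1 : Fin 2)] ≠ α ++ [0] := by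
        intro h
        have := List.append_cancel_left h
        simp at this
      obtain ⟨d, Q, lv, hQ, hinj, hmem, hτ⟩ := exists_structure P S.card S le_rfl hc
      obtain ⟨i0, hi0⟩ := (hmem _).1 h0
      obtain ⟨i1, hi1⟩ := (hmem _).1 h1
      obtain ⟨j0, hj0⟩ := (hmem _).1 hβ0
      obtain ⟨j1, hj1⟩ := (hmem _).1 hβ1
      have hi : i1 ≠ i0 := by rintro rfl; exact hα (hi1.symm.trans hi0)
      have hj : j1 ≠ j0 := by rintro rfl; exact hβ (hj1.symm.trans hj0)
      -- a permutation with `i0 ↦ j0`, `i1 ↦ j1`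
      obtain ⟨σ, hσ0, hσ1⟩ : ∃ σ : Equiv.Perm (Fin d), σ i0 = j0 ∧ σ i1 = j1 := by
        refine ⟨Equiv.swap (Equiv.swap i0 j0 i1) j1 * Equiv.swap i0 j0, ?_, ?_⟩
        · rw [Equiv.Perm.mul_apply, Equiv.swap_apply_left, Equiv.swap_apply_of_ne_of_ne]
          · intro h
            have : Equiv.swap i0 j0 i0 = Equiv.swap i0 j0 i1 := by
              rw [Equiv.swap_apply_left]; exact h
            exact hi ((Equiv.swap i0 j0).injective this).symm
          · exact hj.symm
        · rw [Equiv.Perm.mul_apply, Equiv.swap_apply_left]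
      have hd : 2 ≤ d := by
        have := i0.2
        have := i1.2
        have : (i1 : ℕ) ≠ i0 := fun h => hi (Fin.ext h)
        omega
      have hg : Q.ψu σ⁻¹ ∈ Subgroup.closure (Images P) :=
        Subgroup.subset_closure ⟨d, Q, σ⁻¹, hd, hQ, rfl⟩
      have hτg : ∀ i, Q.τ i * (Q.ψu σ⁻¹ : U) = Q.τ (σ i) := by
        intro i
        have := Q.τ_mul_ψ σ⁻¹ i
        rw [inv_inv] at this
        exact this
      -- the action of `g u`
      have hact : ∀ i, wd P (lv i) * ((Q.ψu σ⁻¹ * u : Uˣ) : U) = wd P (f (lv (σ i))) := by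
        intro i
        rw [Units.val_mul, ← mul_assoc, ← hτ, hτg, hτ]
        exact hu _ ((hmem _).2 ⟨_, rfl⟩)
      have hα' : wd P α * ((Q.ψu σ⁻¹ * u : Uˣ) : U) = wd P α' := by
        apply P.ext_mul
        intro b
        have hb : ∀ x : List (Fin 2), P.τ b * wd P x = wd P (x ++ [b]) := by
          intro x
          rw [wd_append]
          simp [wd]
        rw [← mul_assoc, hb, hb]
        rcases Fin.exists_fin_two.1 ⟨b, rfl⟩ with rfl | rfl
        · have := hact i0
          rw [hσ0, hi0, hj0, hfβ0] at this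
          exact this
        · have := hact i1
          rw [hσ1, hi1, hj1, hfβ1] at this
          exact this
      classical
      -- the index of a word
      have : Nonempty (Fin d) := ⟨i0⟩
      choose! ix hix using fun l => (hmem l).1
      let f0 : List (Fin 2) → List (Fin 2) := fun l => if l = α then α' else f (lv (σ (ix l)))
      have hαS : α ∉ S := by
        intro h
        have := hc.eq h h0 (r := [0]) (r' := []) (by rw [List.append_nil])
        simpa using congrArg List.length this
      have hα'S : α' ∉ S.image f := by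
        intro h
        have := hcf.eq h h0' (r := [0]) (r' := []) (by rw [List.append_nil])
        simpa using congrArg List.length this
      have hix' : ∀ i, ix (lv i) = i := fun i => hinj (hix _ ((hmem _).2 ⟨i, rfl⟩))
      have hf0α : f0 α = α' := if_pos rfl
      have hf0 : ∀ i, f0 (lv i) = f (lv (σ i)) := by
        intro i
        have : lv i ≠ α := fun h => hαS ((hmem α).2 ⟨i, h⟩)
        show (if lv i = α then α' else f (lv (σ (ix (lv i))))) = _
        rw [if_neg this, hix']
      have hflv : ∀ i j, f (lv i) = f (lv j) → i = j := fun i j h =>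
        hinj (hf ((hmem _).2 ⟨i, rfl⟩) ((hmem _).2 ⟨j, rfl⟩) h)
      have hmemj : ∀ l, l ∈ join S α ↔ l = α ∨ ∃ i, i ≠ i0 ∧ i ≠ i1 ∧ lv i = l := by
        intro l
        rw [mem_join]
        constructor
        · rintro (h | ⟨h2, h3, h4⟩)
          · exact Or.inl h
          · obtain ⟨i, rfl⟩ := (hmem l).1 h4
            exact Or.inr ⟨i, fun h => h2 (by rw [h, hi0]), fun h => h3 (by rw [h, hi1]), rfl⟩
        · rintro (h | ⟨i, h2, h3, rfl⟩)
          · exact Or.inl h
          · refine Or.inr ⟨fun h => h2 (hinj (h.trans hi0.symm)),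
              fun h => h3 (hinj (h.trans hi1.symm)), (hmem _).2 ⟨i, rfl⟩⟩
      have himage : (join S α).image f0 = join (S.image f) α' := by
        ext l
        rw [Finset.mem_image, mem_join]
        constructor
        · rintro ⟨x, hx, rfl⟩
          rcases (hmemj x).1 hx with rfl | ⟨i, h2, h3, rfl⟩
          · exact Or.inl hf0α
          · rw [hf0]
            refine Or.inr ⟨?_, ?_, Finset.mem_image_of_mem _ ((hmem _).2 ⟨_, rfl⟩)⟩
            · intro h
              rw [← hfβ0, ← hj0] at h
              exact h2 (σ.injective ((hflv _ _ h).trans hσ0.symm))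
            · intro h
              rw [← hfβ1, ← hj1] at h
              exact h3 (σ.injective ((hflv _ _ h).trans hσ1.symm))
        · rintro (rfl | ⟨h2, h3, h4⟩)
          · exact ⟨α, (hmemj _).2 (Or.inl rfl), hf0α⟩
          · obtain ⟨x, hx, rfl⟩ := Finset.mem_image.1 h4
            obtain ⟨j, rfl⟩ := (hmem x).1 hx
            refine ⟨lv (σ⁻¹ j), (hmemj _).2 (Or.inr ⟨σ⁻¹ j, ?_, ?_, rfl⟩), ?_⟩
            · intro h
              apply h2
              rw [← hfβ0, ← hj0, ← hσ0, ← h]
              simp
            · intro h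
              apply h3
              rw [← hfβ1, ← hj1, ← hσ1, ← h]
              simp
            · rw [hf0]
              simp
      have hinj0 : Set.InjOn f0 (join S α) := by
        intro x hx y hy hxy
        have hα'f : ∀ i, f (lv i) ≠ α' := fun i h => hα'S (h ▸
          Finset.mem_image_of_mem _ ((hmem _).2 ⟨i, rfl⟩))
        rcases (hmemj x).1 hx with rfl | ⟨i, h2, h3, rfl⟩ <;>
        rcases (hmemj y).1 hy with rfl | ⟨i', h2', h3', rfl⟩
        · rfl
        · rw [hf0α, hf0] at hxy
          exact absurd hxy.symm (hα'f _)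
        · rw [hf0α, hf0] at hxy
          exact absurd hxy (hα'f _)
        · rw [hf0, hf0] at hxy
          rw [σ.injective (hflv _ _ hxy)]
      have hgu := ih (join S α) (by have := card_join h0 h1; omega) (cover_join hc h0 h1) f0 hinj0
        (by rw [himage]; exact cover_join hcf h0' h1') (Q.ψu σ⁻¹ * u) (fun l hl => by
          rcases (hmemj l).1 hl with rfl | ⟨i, h2, h3, rfl⟩
          · rw [hf0α]; exact hα'
          · rw [hf0]; exact hact i)
      have := Subgroup.mul_mem _ (Subgroup.inv_mem _ hg) hgu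
      rwa [inv_mul_cancel_left] at this

variable {P}

/-- the submonoid of the elements given by words at some depth -/
def wordLike : Submonoid U where
  carrier := {u | ∃ N : ℕ, ∀ l : List (Fin 2), l.length = N → ∃ r, wd P l * u = wd P r}
  one_mem' := ⟨0, fun l _ => ⟨l, by rw [mul_one]⟩⟩
  mul_mem' := by
    rintro u v ⟨N, hu⟩ ⟨N', hv⟩
    refine ⟨N + N', fun l hl => ?_⟩
    obtain ⟨l1, l2, rfl, h1, h2⟩ : ∃ l1 l2, l = l1 ++ l2 ∧ l1.length = N ∧ l2.length = N' :=
      ⟨l.take N, l.drop N, (List.take_append_drop N l).symm, by simp [hl], by simp [hl]⟩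
    obtain ⟨r, hr⟩ := hu l1 h1
    have h3 : wd P (l1 ++ l2) * (u * v) = wd P (r ++ l2) * v := by
      rw [wd_append, wd_append, ← hr]
      simp only [mul_assoc]
    obtain ⟨s1, s2, hs, h4⟩ : ∃ s1 s2, r ++ l2 = s1 ++ s2 ∧ s1.length = N' :=
      ⟨(r ++ l2).take N', (r ++ l2).drop N', (List.take_append_drop _ _).symm, by simp; omega⟩
    obtain ⟨r', hr'⟩ := hv s1 h4
    refine ⟨r' ++ s2, ?_⟩
    rw [h3, hs, wd_append, wd_append, mul_assoc, hr']

theorem wordLike_mono {u : U} {N : ℕ}
    (h : ∀ l : List (Fin 2), l.length = N → ∃ r, wd P l * u = wd P r) {N' : ℕ} (hN : N ≤ N') :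
    ∀ l : List (Fin 2), l.length = N' → ∃ r, wd P l * u = wd P r := by
  intro l hl
  obtain ⟨r, hr⟩ := h (l.take N) (by simp [hl, hN])
  refine ⟨r ++ l.drop N, ?_⟩
  rw [wd_append, ← hr, ← mul_assoc, ← wd_append, List.take_append_drop]

theorem wordLike_top (hP : IsUniversal P) (u : U) : u ∈ wordLike (P := P) := by
  have hτ : ∀ i, P.τ i ∈ wordLike (P := P) := fun i => ⟨0, fun l hl => ⟨[i], by
    rw [List.length_eq_zero_iff] at hl
    subst hl
    simp [wd]⟩⟩
  have hΦ : ∀ m : Fin 2 → U, (∀ i, m i ∈ wordLike (P := P)) → P.Φ m ∈ wordLike (P := P) := by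
    intro m hm
    obtain ⟨N0, h0⟩ := hm 0
    obtain ⟨N1, h1⟩ := hm 1
    refine ⟨max N0 N1 + 1, fun l hl => ?_⟩
    cases l with
    | nil => simp at hl
    | cons b l =>
      have hl' : l.length = max N0 N1 := by simpa using hl
      have h2 : wd P (b :: l) * P.Φ m = wd P l * m b := by
        show wd P l * P.τ b * P.Φ m = _
        rw [mul_assoc, P.τ_mul_Φ]
      rw [h2]
      rcases Fin.exists_fin_two.1 ⟨b, rfl⟩ with rfl | rfl
      · exact wordLike_mono h0 (le_max_left _ _) l hl'
      · exact wordLike_mono h1 (le_max_right _ _) l hl'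
  let Q : CPStructure (wordLike (P := P)) 2 :=
    { Φ := fun m => ⟨P.Φ fun i => m i, hΦ _ fun i => (m i).2⟩
      τ := fun i => ⟨P.τ i, hτ i⟩
      bijective := by
        constructor
        · intro m m' h
          funext i
          apply Subtype.ext
          exact congrFun (P.bijective.1 (Subtype.ext_iff.1 h)) i
        · rintro ⟨a, ha⟩
          refine ⟨fun i => ⟨P.τ i * a, Submonoid.mul_mem _ (hτ i) ha⟩, ?_⟩
          apply Subtype.ext
          apply P.ext_mul
          intro i
          show P.τ i * P.Φ _ = _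
          rw [P.τ_mul_Φ]
      τ_mul_Φ := fun i m => Subtype.ext (P.τ_mul_Φ i _) }
  obtain ⟨f, ⟨hf1, hf2⟩, -⟩ := hP _ Q
  obtain ⟨g, -, hg⟩ := hP U P
  have e1 := hg (MonoidHom.id U) ⟨fun i => rfl, fun m => rfl⟩
  have e2 := hg ((wordLike (P := P)).subtype.comp f) ⟨fun i => by
    show ((f (P.τ i) : wordLike (P := P)) : U) = _
    rw [hf1], fun m => by
    show ((f (P.Φ m) : wordLike (P := P)) : U) = _
    rw [hf2]
    rfl⟩
  have e3 : (wordLike (P := P)).subtype.comp f = MonoidHom.id U := e2.trans e1.symm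
  have e4 := DFunLike.congr_fun e3 u
  have e5 : ((f u : wordLike (P := P)) : U) = u := e4
  rw [← e5]
  exact (f u).2

/-- the words of length `N` -/
def allWords (N : ℕ) : Finset (List (Fin 2)) :=
  Finset.univ.image fun v : Fin N → Fin 2 => List.ofFn v

theorem mem_allWords {N : ℕ} {l : List (Fin 2)} : l ∈ allWords N ↔ l.length = N := by
  constructor
  · intro h
    obtain ⟨v, -, rfl⟩ := Finset.mem_image.1 h
    simp
  · rintro rfl
    exact Finset.mem_image.2 ⟨l.get, Finset.mem_univ _, List.ofFn_get l⟩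

theorem cover_allWords (N : ℕ) : Cover (allWords N) := by
  induction N with
  | zero =>
    have : allWords 0 = {[]} := by
      ext l
      rw [mem_allWords, Finset.mem_singleton, List.length_eq_zero_iff]
    rw [this]
    exact cover_nil
  | succ N ih =>
    intro c
    obtain ⟨l, ⟨hl, c', hc'⟩, hu⟩ := ih (tl c)
    refine ⟨c 0 :: l, ⟨mem_allWords.2 (by simp [mem_allWords.1 hl]), c', ?_⟩, ?_⟩
    · rw [cat, ← hc', sc_tl]
    · rintro m ⟨hm, c'', hc''⟩
      cases m with
      | nil => simp [mem_allWords] at hm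
      | cons b m =>
        have h1 : c 0 = b := congrFun hc'' 0
        have h2 : tl c = cat m c'' := congrArg tl hc''
        rw [h1, hu m ⟨mem_allWords.2 (by simpa [mem_allWords] using hm), c'', h2⟩]

theorem generated (hP : IsUniversal P) : Subgroup.closure (Images P) = ⊤ := by
  rw [eq_top_iff]
  rintro u -
  obtain ⟨N, hN⟩ := wordLike_top hP (u : U)
  choose! f hf using hN
  obtain ⟨h, ⟨h1, h2⟩, -⟩ := hP CM CP
  have hwd : ∀ l, h (wd P l) = MulOpposite.op (cat l) := by
    intro l
    induction l with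
    | nil => exact map_one h
    | cons b l ih =>
      rw [wd, map_mul, ih, h1]
      rfl
  let v : Can → Can := MulOpposite.unop (h (u : U))
  let v' : Can → Can := MulOpposite.unop (h ((u⁻¹ : Uˣ) : U))
  have hvv : ∀ c, v (v' c) = c := by
    intro c
    have : h ((u⁻¹ : Uˣ) : U) * h (u : U) = 1 := by
      rw [← map_mul, Units.inv_mul, map_one]
    exact congrFun (congrArg MulOpposite.unop this) c
  have hvv' : ∀ c, v' (v c) = c := by
    intro c
    have : h (u : U) * h ((u⁻¹ : Uˣ) : U) = 1 := by
      rw [← map_mul, Units.mul_inv, map_one]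
    exact congrFun (congrArg MulOpposite.unop this) c
  have hact : ∀ l, l.length = N → ∀ c, v (cat l c) = cat (f l) c := by
    intro l hl c
    have := congrArg h (hf l hl)
    rw [map_mul, hwd, hwd] at this
    exact congrFun (congrArg MulOpposite.unop this) c
  have hv_inj : Function.Injective v := fun a b hab => by rw [← hvv' a, hab, hvv']
  have hcov := cover_allWords N
  have hpre : ∀ l ∈ allWords N, ∀ l' ∈ allWords N, ∀ c, Pre (f l) c → Pre (f l') c → l = l' := by
    rintro l hl l' hl' c ⟨c1, hc1⟩ ⟨c2, hc2⟩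
    rw [← hact l (mem_allWords.1 hl)] at hc1
    rw [← hact l' (mem_allWords.1 hl')] at hc2
    have := hv_inj (hc1.symm.trans hc2)
    obtain ⟨m, -, hm⟩ := hcov (cat l c1)
    rw [hm l ⟨hl, _, rfl⟩, hm l' ⟨hl', _, this⟩]
  refine unit_mem P (allWords N).card (allWords N) le_rfl hcov f ?_ ?_ u fun l hl =>
    hf l (mem_allWords.1 hl)
  · intro l hl l' hl' hll
    exact hpre l hl l' hl' (cat (f l) fun _ => 0) ⟨_, rfl⟩ ⟨_, by rw [hll]⟩
  · intro c
    obtain ⟨l, ⟨hl, c', hc'⟩, -⟩ := hcov (v' c)
    have hlc : Pre (f l) c := ⟨c', by rw [← hact l (mem_allWords.1 hl), ← hc', hvv]⟩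
    refine ⟨f l, ⟨Finset.mem_image_of_mem _ hl, hlc⟩, ?_⟩
    rintro m ⟨hm, hmc⟩
    obtain ⟨l', hl', rfl⟩ := Finset.mem_image.1 hm
    rw [hpre l' hl' l hl c hmc hlc]

end Units

/-- **Theorem.** The category of CP monoids has an initial object (the universal CP monoid `U`), and
the group of units of `U` is generated by the union of the images `ψ_{Φ,τ}(S_d)`, taken over all
`d ≥ 2` and all `d`-CP structures `(Φ, τ)` in `𝕊(U)`. -/
theorem result :
    (∃ (U : Type) (_ : Monoid U) (P : CPStructure U 2), IsUniversal P) ∧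
    ∀ (U : Type) [Monoid U] (P : CPStructure U 2), IsUniversal P →
      Subgroup.closure {u : Uˣ | ∃ (d : ℕ) (Q : CPStructure U d) (σ : Equiv.Perm (Fin d)), 2 ≤ d ∧
        Iterated P Q ∧ (u : U) = Q.ψ σ} = ⊤ :=
  ⟨⟨TM, inferInstance, TP, tm_universal⟩, fun _ _ _ hP => generated hP⟩

end Pool.Agent.Results.MP_6189ff_al.UnitsGenerated
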